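import Mathlib
import Pool.Agent.H67.FG.Gue

/-!
# Upper bound with MOD_2 gates: definitions
-/

set_option autoImplicit false

namespace Pool.Agent.H85.FG

open Pool.Agent.H3.Frg Pool.Agent.H3.Frg2 Pool.Agent.H67.FG

variable {V : Type}

/-- `A` may be the next line after the lines `P` -/
def Ok (m k : ℕ) (Hyp : Set (Fo V)) (P : List (Fo V)) (A : Fo V) : Prop :=
  A ∈ Hyp ∨ (∃ (ψ : Fm ℕ) (σ : ℕ → Fo V), ψ.len ≤ k ∧
    (∀ v : Fo V → Bool, Resp m v → ψ.eval (fun n => v (σ n)) = true) ∧ A = inst σ ψ) ∨ ∃ B ∈ P, Fo.imp B A ∈ P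

/-- derivations -/
inductive Dr (m k : ℕ) (Hyp : Set (Fo V)) : List (Fo V) → Prop
  | nil : Dr m k Hyp []
  | snoc (π : List (Fo V)) (A : Fo V) (h : Dr m k Hyp π) (hA : Ok m k Hyp π A) : Dr m k Hyp (π ++ [A])

/-- `A` has a derivation with at most `n` lines, all with the property `Q` -/
def Can (m k : ℕ) (Hyp : Set (Fo V)) (Q : Fo V → Prop) (n : ℕ) (A : Fo V) : Prop :=
  ∃ π, Dr m k Hyp π ∧ A ∈ π ∧ π.length ≤ n ∧ ∀ B ∈ π, Q B

/-- at most `L` symbols, depth at most `d`, at most `g` gates -/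
def Bd (L d g : ℕ) (A : Fo V) : Prop :=
  A.subs.length ≤ L ∧ (∀ B ∈ A.subs, B.dep ≤ d) ∧ A.gates.ncard ≤ g

/-- the gate with the members of a list -/
def gt (a : ℕ) (X : List (Fo V)) : Fo V := .mod a X.length fun i => X.get i

/-- the disjunction `x ∨ Y₁ ∨ Y₂ ∨ …` -/
def dj : Fo V → List (Fo V) → Fo V
  | x, [] => x
  | x, y :: Y => .imp (.neg x) (dj y Y)

end Pool.Agent.H85.FG
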