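import Mathlib
import Pool.Agent.H85.FG.U0

/-!
# U1: derivations

`Dr_append`: induction on the second derivation, `Ok` is monotone in the list. `Dr_line`: by induction, `getElem` of `π ++ [A]`.
`exists_ref`: `π ++ [¬ (A → A)]` where `¬ (A → A) ∈ π` (a member of a derivation is `Ok` for the whole list).
-/

set_option autoImplicit false

namespace Pool.Agent.H85.FG

open Pool.Agent.H3.Frg Pool.Agent.H3.Frg2 Pool.Agent.H67.FG

variable {V : Type} {m k : ℕ} {Hyp : Set (Fo V)} {Q : Fo V → Prop}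

theorem Ok_mono {P P' : List (Fo V)} {A : Fo V} (h : Ok m k Hyp P A) (hP : ∀ B ∈ P, B ∈ P') :
    Ok m k Hyp P' A := by
  rcases h with h | h | ⟨B, hB, hBA⟩
  · exact Or.inl h
  · exact Or.inr (Or.inl h)
  · exact Or.inr (Or.inr ⟨B, hP B hB, hP _ hBA⟩)

theorem Dr_append {π ρ : List (Fo V)} (h1 : Dr m k Hyp π) (h2 : Dr m k Hyp ρ) : Dr m k Hyp (π ++ ρ) := by
  induction h2 with
  | nil => rwa [List.append_nil]
  | snoc ρ A _ hA ih =>
    rw [← List.append_assoc]
    exact Dr.snoc _ _ ih (Ok_mono hA fun B hB => List.mem_append_right _ hB)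

theorem Dr_mem {π : List (Fo V)} (h : Dr m k Hyp π) : ∀ A ∈ π, Ok m k Hyp π A := by
  induction h with
  | nil =>
    intro A hA
    exact absurd hA List.not_mem_nil
  | snoc π B _ hB ih =>
    intro A hA
    rcases List.mem_append.1 hA with hA | hA
    · exact Ok_mono (ih A hA) fun C hC => List.mem_append_left _ hC
    · rw [List.mem_singleton.1 hA]
      exact Ok_mono hB fun C hC => List.mem_append_left _ hC

theorem Dr_line {π : List (Fo V)} (h : Dr m k Hyp π) : ∀ (i : ℕ) (hi : i < π.length), π[i] ∈ Hyp ∨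
    (∃ (ψ : Fm ℕ) (σ : ℕ → Fo V), ψ.len ≤ k ∧
      (∀ v : Fo V → Bool, Resp m v → ψ.eval (fun n => v (σ n)) = true) ∧ π[i] = inst σ ψ) ∨
    ∃ (j l : ℕ) (hj : j < i) (hl : l < i), π[l] = .imp π[j] π[i] := by
  induction h with
  | nil =>
    intro i hi
    exact absurd hi (Nat.not_lt_zero i)
  | snoc π A _ hA ih =>
    intro i hi
    by_cases h1 : i < π.length
    · have h2 : (π ++ [A])[i] = π[i] := List.getElem_append_left h1
      rcases ih i h1 with h3 | ⟨ψ, σ, h3, h4, h5⟩ | ⟨j, l, hj, hl, h3⟩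
      · left
        rw [h2]
        exact h3
      · right
        left
        exact ⟨ψ, σ, h3, h4, by rw [h2]; exact h5⟩
      · right
        right
        refine ⟨j, l, hj, hl, ?_⟩
        rw [h2, List.getElem_append_left (hj.trans h1), List.getElem_append_left (hl.trans h1)]
        exact h3
    · have h2 : i = π.length := by
        rw [List.length_append, List.length_singleton] at hi
        omega
      subst h2
      have h3 : (π ++ [A])[π.length] = A := by
        simp
      rcases hA with h4 | ⟨ψ, σ, h4, h5, h6⟩ | ⟨B, hB, hBA⟩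
      · left
        rw [h3]
        exact h4
      · right
        left
        exact ⟨ψ, σ, h4, h5, by rw [h3]; exact h6⟩
      · right
        right
        obtain ⟨j, hj, hj'⟩ := List.getElem_of_mem hB
        obtain ⟨l, hl, hl'⟩ := List.getElem_of_mem hBA
        refine ⟨j, l, hj, hl, ?_⟩
        rw [h3, List.getElem_append_left hj, List.getElem_append_left hl, hj', hl']

theorem can_mono {n n' : ℕ} {A : Fo V} (h : Can m k Hyp Q n A) (hn : n ≤ n') : Can m k Hyp Q n' A := by
  obtain ⟨π, h1, h2, h3, h4⟩ := h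
  exact ⟨π, h1, h2, h3.trans hn, h4⟩

theorem can_single {A : Fo V} (hA : Ok m k Hyp [] A) (hQ : Q A) : Can m k Hyp Q 1 A := by
  refine ⟨[] ++ [A], Dr.snoc [] A Dr.nil hA, by simp, by simp, ?_⟩
  intro B hB
  rw [List.nil_append, List.mem_singleton] at hB
  rw [hB]
  exact hQ

theorem can_hyp {A : Fo V} (hA : A ∈ Hyp) (hQ : Q A) : Can m k Hyp Q 1 A :=
  can_single (Or.inl hA) hQ

theorem can_ax (ψ : Fm ℕ) (σ : ℕ → Fo V) (hk : ψ.len ≤ k)
    (hv : ∀ v : Fo V → Bool, Resp m v → ψ.eval (fun n => v (σ n)) = true) (hQ : Q (inst σ ψ)) :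
    Can m k Hyp Q 1 (inst σ ψ) :=
  can_single (Or.inr (Or.inl ⟨ψ, σ, hk, hv, rfl⟩)) hQ

theorem can_mp {n1 n2 : ℕ} {A B : Fo V} (h1 : Can m k Hyp Q n1 A) (h2 : Can m k Hyp Q n2 (.imp A B)) (hQ : Q B) :
    Can m k Hyp Q (n1 + n2 + 1) B := by
  obtain ⟨π, a1, a2, a3, a4⟩ := h1
  obtain ⟨ρ, b1, b2, b3, b4⟩ := h2
  refine ⟨(π ++ ρ) ++ [B], Dr.snoc _ _ (Dr_append a1 b1)
    (Or.inr (Or.inr ⟨A, List.mem_append_left _ a2, List.mem_append_right _ b2⟩)), by simp, ?_, ?_⟩
  · rw [List.length_append, List.length_append, List.length_singleton]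
    omega
  · intro C hC
    rcases List.mem_append.1 hC with hC | hC
    · rcases List.mem_append.1 hC with hC | hC
      · exact a4 C hC
      · exact b4 C hC
    · rw [List.mem_singleton.1 hC]
      exact hQ

theorem exists_ref {n : ℕ} {A : Fo V} (h : Can m k Hyp Q n (.neg (.imp A A))) :
    ∃ π, IsRef m k Hyp π ∧ (∀ B ∈ π, Q B) ∧ π.length ≤ n + 1 := by
  obtain ⟨π, h1, h2, h3, h4⟩ := h
  refine ⟨π ++ [.neg (.imp A A)], ⟨Dr_line (Dr.snoc _ _ h1 (Dr_mem h1 _ h2)), by simp, A, by simp⟩, ?_, ?_⟩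
  · intro B hB
    rcases List.mem_append.1 hB with hB | hB
    · exact h4 B hB
    · rw [List.mem_singleton.1 hB]
      exact h4 _ h2
  · rw [List.length_append, List.length_singleton]
    omega

theorem size_le {π : List (Fo V)} {L n : ℕ} (h : ∀ B ∈ π, B.subs.length ≤ L) (hn : π.length ≤ n) : size π ≤ n * L := by
  unfold size
  have h1 : ∀ x ∈ (π.map fun A => A.subs.length), x ≤ L := by
    intro x hx
    obtain ⟨B, hB, rfl⟩ := List.mem_map.1 hx
    exact h B hB
  have h2 := List.sum_le_card_nsmul _ L h1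
  rw [List.length_map, smul_eq_mul] at h2
  exact h2.trans (Nat.mul_le_mul_right L hn)

end Pool.Agent.H85.FG
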