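import Mathlib
import Pool.Agent.H85.FG.U0

/-!
# U2: size, depth, gates of the formulas; the values of the gates
-/

set_option autoImplicit false

namespace Pool.Agent.H85.FG

open Pool.Agent.H3.Frg Pool.Agent.H3.Frg2 Pool.Agent.H67.FG

variable {V : Type}

theorem Bd_mono {L d g L' d' g' : ℕ} {A : Fo V} (h : Bd L d g A) (hL : L ≤ L') (hd : d ≤ d') (hg : g ≤ g') :
    Bd L' d' g' A :=
  ⟨h.1.trans hL, fun B hB => (h.2.1 B hB).trans hd, h.2.2.trans hg⟩

theorem Bd_var (x : V) : Bd 1 0 0 (.var x) := by
  refine ⟨le_rfl, fun B hB => ?_, ?_⟩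
  · rw [Fo.subs, List.mem_singleton] at hB
    rw [hB]
    exact le_rfl
  · have h : (Fo.var x).gates = ∅ := by
      refine Set.eq_empty_iff_forall_notMem.2 ?_
      rintro B ⟨hB, a, n, f, rfl⟩
      rw [Fo.subs, List.mem_singleton] at hB
      cases hB
    rw [h, Set.ncard_empty]

theorem Bd_neg {L d g : ℕ} {A : Fo V} (h : Bd L d g A) : Bd (L + 1) (d + 1) g (.neg A) := by
  refine ⟨?_, fun B hB => ?_, ?_⟩
  · rw [Fo.subs, List.length_cons]
    exact Nat.succ_le_succ h.1
  · rw [Fo.subs, List.mem_cons] at hB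
    rcases hB with rfl | hB
    · exact Nat.succ_le_succ (h.2.1 A (self_mem_subs A))
    · exact (h.2.1 B hB).trans (Nat.le_succ d)
  · have h1 : (Fo.neg A).gates = A.gates := by
      ext B
      constructor
      · rintro ⟨hB, a, n, f, rfl⟩
        rw [Fo.subs, List.mem_cons] at hB
        rcases hB with hB | hB
        · cases hB
        · exact ⟨hB, a, n, f, rfl⟩
      · rintro ⟨hB, a, n, f, rfl⟩
        refine ⟨?_, a, n, f, rfl⟩
        rw [Fo.subs]
        exact List.mem_cons_of_mem _ hB
    rw [h1]
    exact h.2.2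

theorem Bd_imp {L1 d1 g1 L2 d2 g2 : ℕ} {A B : Fo V} (h1 : Bd L1 d1 g1 A) (h2 : Bd L2 d2 g2 B) :
    Bd (L1 + L2 + 1) (max (d1 + 1) d2) (g1 + g2) (.imp A B) := by
  refine ⟨?_, fun C hC => ?_, ?_⟩
  · rw [Fo.subs, List.length_cons, List.length_append]
    have := h1.1
    have := h2.1
    omega
  · rw [Fo.subs, List.mem_cons, List.mem_append] at hC
    rcases hC with rfl | hC | hC
    · exact max_le_max (Nat.succ_le_succ (h1.2.1 A (self_mem_subs A))) (h2.2.1 B (self_mem_subs B))
    · have := h1.2.1 C hC
      omega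
    · have := h2.2.1 C hC
      omega
  · have h3 : (Fo.imp A B).gates = A.gates ∪ B.gates := by
      ext C
      constructor
      · rintro ⟨hC, a, n, f, rfl⟩
        rw [Fo.subs, List.mem_cons, List.mem_append] at hC
        rcases hC with hC | hC | hC
        · cases hC
        · exact Or.inl ⟨hC, a, n, f, rfl⟩
        · exact Or.inr ⟨hC, a, n, f, rfl⟩
      · rintro (⟨hC, a, n, f, rfl⟩ | ⟨hC, a, n, f, rfl⟩)
        · refine ⟨?_, a, n, f, rfl⟩
          rw [Fo.subs]
          exact List.mem_cons_of_mem _ (List.mem_append_left _ hC)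
        · refine ⟨?_, a, n, f, rfl⟩
          rw [Fo.subs]
          exact List.mem_cons_of_mem _ (List.mem_append_right _ hC)
    rw [h3]
    exact (Set.ncard_union_le _ _).trans (add_le_add h1.2.2 h2.2.2)

theorem Bd_gt (a : ℕ) {X : List (Fo V)} (hX : ∀ B ∈ X, ∃ x, B = .var x) : Bd (X.length + 1) 0 1 (gt a X) := by
  have hsub : ∀ C, C ∈ (gt a X).subs → C = gt a X ∨ ∃ x, C = .var x := by
    intro C hC
    unfold gt at hC ⊢
    rw [Fo.subs, List.mem_cons] at hC
    rcases hC with hC | hC
    · exact Or.inl hC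
    · rw [List.mem_flatMap] at hC
      obtain ⟨i, _, hC⟩ := hC
      obtain ⟨x, hx⟩ := hX (X.get i) (List.get_mem X i)
      rw [hx, Fo.subs, List.mem_singleton] at hC
      exact Or.inr ⟨x, hC⟩
  refine ⟨?_, fun C hC => ?_, ?_⟩
  · unfold gt
    rw [Fo.subs, List.length_cons, List.length_flatMap]
    have h1 : (List.finRange X.length).map (fun i => (X.get i).subs.length) =
        (List.finRange X.length).map (fun _ => 1) := by
      refine List.map_congr_left (fun i _ => ?_)
      obtain ⟨x, hx⟩ := hX (X.get i) (List.get_mem X i)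
      rw [hx]
      rfl
    rw [h1]
    simp
  · rcases hsub C hC with rfl | ⟨x, rfl⟩
    · exact le_rfl
    · exact le_rfl
  · have h1 : (gt a X).gates ⊆ {gt a X} := by
      rintro C ⟨hC, b, n, f, rfl⟩
      rcases hsub _ hC with h | ⟨x, h⟩
      · exact h
      · cases h
    exact (Set.ncard_le_ncard h1 (Set.finite_singleton _)).trans (Set.ncard_singleton _).le

theorem Bd_dj {x : Fo V} {Y : List (Fo V)} (hX : ∀ B ∈ x :: Y, ∃ x, B = .var x) : Bd (3 * Y.length + 1) 2 0 (dj x Y) := by
  induction Y generalizing x with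
  | nil =>
    obtain ⟨z, hz⟩ := hX x List.mem_cons_self
    rw [dj, hz]
    exact Bd_mono (Bd_var z) (by simp) (by omega) le_rfl
  | cons y Y ih =>
    obtain ⟨z, hz⟩ := hX x List.mem_cons_self
    rw [dj, hz]
    have h1 := Bd_imp (Bd_neg (Bd_var z)) (ih (x := y) (fun B hB => hX B (List.mem_cons_of_mem _ hB)))
    refine Bd_mono h1 ?_ (by simp) le_rfl
    rw [List.length_cons]
    omega

theorem card_get (v : Fo V → Bool) (X : List (Fo V)) :
    (Finset.univ.filter fun i : Fin X.length => v (X.get i) = true).card = X.countP v := by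
  induction X with
  | nil => simp
  | cons A X ih =>
    have h1 : (Finset.univ.filter fun i : Fin (X.length + 1) => v ((A :: X).get i) = true).card =
        if v ((A :: X).get 0) = true
        then (Finset.univ.filter fun i : Fin X.length => v ((A :: X).get i.succ) = true).card + 1
        else (Finset.univ.filter fun i : Fin X.length => v ((A :: X).get i.succ) = true).card :=
      Fin.card_filter_univ_succ (fun i : Fin (X.length + 1) => v ((A :: X).get i) = true)
    have h2 : (Finset.univ.filter fun i : Fin X.length => v ((A :: X).get i.succ) = true).card =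
        X.countP v := ih
    rw [h2] at h1
    change (Finset.univ.filter fun i : Fin (X.length + 1) => v ((A :: X).get i) = true).card = _
    rw [h1, List.countP_cons]
    have h3 : (A :: X).get 0 = A := rfl
    rw [h3]
    by_cases h : v A = true
    · rw [if_pos h, if_pos h]
    · rw [if_neg h, if_neg h, add_zero]

/-- the value of a gate -/
theorem resp_gt {m : ℕ} {v : Fo V → Bool} (hv : Resp m v) (a : ℕ) (X : List (Fo V)) :
    v (gt a X) = decide (X.countP v % m = a % m) := by
  have h1 := hv a X.length (fun i => X.get i)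
  rw [card_get] at h1
  rw [Bool.eq_iff_iff, decide_eq_true_iff]
  exact h1

/-- `dj` is one of the disjunctions in the hypotheses -/
theorem dj_orAll (x : Fo V) (Y : List (Fo V)) :
    ∃ (l : List (Fo V)) (B : Fo V), dj x Y = orAll l B ∧ ∀ C, C ∈ B :: l ↔ C ∈ x :: Y := by
  induction Y generalizing x with
  | nil => exact ⟨[], x, rfl, fun C => Iff.rfl⟩
  | cons y Y ih =>
    obtain ⟨l, B, h1, h2⟩ := ih y
    refine ⟨x :: l, B, ?_, fun C => ?_⟩
    · rw [dj, orAll, h1]
    · have h3 := h2 C
      simp only [List.mem_cons] at h3 ⊢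
      tauto

end Pool.Agent.H85.FG
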