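import Mathlib
import Pool.Agent.H85.FG.U1
import Pool.Agent.H85.FG.U2

/-!
# V3: exactly one of the members of a list is true, so their number is odd

Schemes (all valid for `Resp m`, letters by `σ`, `inst σ ψ` is the formula by `rfl`):
* `gam`: `(x → ¬y) → ((x → ¬d) → (x → ¬(¬y → d)))`, induction on `Y`.
* `alp`: `Y = []`: `¬x → gt 0 [x]`; `Y = y :: Y'`: `(¬d → e) → (¬(¬x → d) → e')`, `d = dj y Y'`, `e = gt 0 (y :: Y')`,
  `e' = gt 0 (x :: y :: Y')`.
* `bet`: `Y = []`: `x → gt 1 [x]`; otherwise `(d → o) → ((¬d → e) → ((x → ¬d) → ((¬x → d) → o')))`,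
  `o = gt 1 (y :: Y')`, `o' = gt 1 (x :: y :: Y')`.
The values of the gates: `resp_gt`, `List.countP_cons`. `Q = Bd (30 * M) 8 3`, all lists have at most `M` members.
-/

set_option autoImplicit false

namespace Pool.Agent.H85.FG.V

open Pool.Agent.H3.Frg Pool.Agent.H3.Frg2 Pool.Agent.H67.FG Pool.Agent.H85.FG

variable {V : Type} {m k M : ℕ} {Hyp : Set (Fo V)}

theorem gam (hk : 40 ≤ k) {x : V} (y : Fo V) (Y : List (Fo V)) (hY : ∀ B ∈ y :: Y, ∃ z, B = .var z)
    (hM : Y.length + 1 ≤ M) (hx : ∀ B ∈ y :: Y, .imp (.var x) (.neg B) ∈ Hyp) :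
    Can m k Hyp (Bd (30 * M) 8 3) (5 * (Y.length + 1)) (.imp (.var x) (.neg (dj y Y))) := by
  induction Y generalizing y with
  | nil =>
    obtain ⟨z, hz⟩ := hY y (by simp)
    refine can_mono (can_hyp (hx y (by simp)) ?_) (by simp)
    rw [hz]
    simp only [List.length_nil] at hM
    exact Bd_mono (Bd_imp (Bd_var x) (Bd_neg (Bd_var z))) (by omega) (by omega) (by omega)
  | cons y' Y ih =>
    simp only [List.length_cons] at hM
    obtain ⟨z, hz⟩ := hY y (by simp)
    have hd : Bd (3 * Y.length + 1) 2 0 (dj y' Y) := Bd_dj fun B hB => hY B (List.mem_cons_of_mem _ hB)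
    have hy : Bd 1 0 0 y := by rw [hz]; exact Bd_var z
    have h1 : Can m k Hyp (Bd (30 * M) 8 3) 1 (.imp (.var x) (.neg y)) := by
      refine can_hyp (hx y (by simp)) ?_
      exact Bd_mono (Bd_imp (Bd_var x) (Bd_neg hy)) (by omega) (by omega) (by omega)
    have h2 := ih y' (fun B hB => hY B (List.mem_cons_of_mem _ hB)) (by omega)
      (fun B hB => hx B (List.mem_cons_of_mem _ hB))
    have hc : Bd (3 * Y.length + 7) 3 0 (.imp (.var x) (.neg (.imp (.neg y) (dj y' Y)))) :=
      Bd_mono (Bd_imp (Bd_var x) (Bd_neg (Bd_imp (Bd_neg hy) hd))) (by omega) (by omega) (by omega)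
    have hb : Bd (6 * Y.length + 12) 4 0
        (.imp (.imp (.var x) (.neg (dj y' Y))) (.imp (.var x) (.neg (.imp (.neg y) (dj y' Y))))) :=
      Bd_mono (Bd_imp (Bd_imp (Bd_var x) (Bd_neg hd)) hc) (by omega) (by omega) (by omega)
    have h3 : Can m k Hyp (Bd (30 * M) 8 3) 1 (.imp (.imp (.var x) (.neg y))
        (.imp (.imp (.var x) (.neg (dj y' Y))) (.imp (.var x) (.neg (.imp (.neg y) (dj y' Y)))))) := by
      refine can_ax (ψ := Fm.imp (Fm.imp (Fm.var 0) (Fm.neg (Fm.var 1))) (Fm.imp (Fm.imp (Fm.var 0) (Fm.neg (Fm.var 2)))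
        (Fm.imp (Fm.var 0) (Fm.neg (Fm.imp (Fm.neg (Fm.var 1)) (Fm.var 2))))))
        (σ := fun n => match n with
          | 0 => .var x
          | 1 => y
          | _ => dj y' Y) (by simp [Fm.len]; omega) (fun v hv => ?_) ?_
      · show (!(!(v (.var x)) || !(v y)) || (!(!(v (.var x)) || !(v (dj y' Y))) ||
          (!(v (.var x)) || !(!(!(v y)) || v (dj y' Y))))) = true
        cases v (.var x) <;> cases v y <;> cases v (dj y' Y) <;> rfl
      · show Bd _ _ _ (Fo.imp (.imp (.var x) (.neg y))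
          (.imp (.imp (.var x) (.neg (dj y' Y))) (.imp (.var x) (.neg (.imp (.neg y) (dj y' Y))))))
        exact Bd_mono (Bd_imp (Bd_imp (Bd_var x) (Bd_neg hy)) hb) (by omega) (by omega) (by omega)
    have h4 := can_mp h1 h3 (Bd_mono hb (by omega) (by omega) (by omega))
    have h5 := can_mp h2 h4 (Bd_mono hc (by omega) (by omega) (by omega))
    exact can_mono h5 (by simp only [List.length_cons]; omega)

theorem alp (hk : 40 ≤ k) (x : Fo V) (Y : List (Fo V)) (hY : ∀ B ∈ x :: Y, ∃ z, B = .var z) (hM : Y.length + 1 ≤ M) :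
    Can m k Hyp (Bd (30 * M) 8 3) (3 * (Y.length + 1)) (.imp (.neg (dj x Y)) (gt 0 (x :: Y))) := by
  induction Y generalizing x with
  | nil =>
    obtain ⟨z, hz⟩ := hY x (by simp)
    have hx : Bd 1 0 0 x := by rw [hz]; exact Bd_var z
    have hg := Bd_gt 0 hY
    simp only [List.length_nil, List.length_cons] at hM hg
    refine can_mono ?_ (show 1 ≤ _ by simp)
    refine can_ax (ψ := Fm.imp (Fm.neg (Fm.var 0)) (Fm.var 1))
      (σ := fun n => match n with
        | 0 => x
        | _ => gt 0 [x]) (by simp [Fm.len]; omega) (fun v hv => ?_) ?_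
    · show (!(!(v x)) || v (gt 0 [x])) = true
      rw [resp_gt hv]
      by_cases h : v x = true <;> simp [h]
    · show Bd _ _ _ (Fo.imp (.neg x) (gt 0 [x]))
      exact Bd_mono (Bd_imp (Bd_neg hx) hg) (by omega) (by omega) (by omega)
  | cons y Y ih =>
    simp only [List.length_cons] at hM
    obtain ⟨z, hz⟩ := hY x (by simp)
    have hx : Bd 1 0 0 x := by rw [hz]; exact Bd_var z
    have hY' : ∀ B ∈ y :: Y, ∃ z, B = Fo.var z := fun B hB => hY B (List.mem_cons_of_mem _ hB)
    have hd : Bd (3 * Y.length + 1) 2 0 (dj y Y) := Bd_dj hY'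
    have he : Bd (Y.length + 2) 0 1 (gt 0 (y :: Y)) := Bd_gt 0 hY'
    have he' : Bd (Y.length + 3) 0 1 (gt 0 (x :: y :: Y)) := Bd_gt 0 hY
    have h1 := ih y hY' (by omega)
    have hb : Bd (4 * Y.length + 9) 4 1 (.imp (.neg (.imp (.neg x) (dj y Y))) (gt 0 (x :: y :: Y))) :=
      Bd_mono (Bd_imp (Bd_neg (Bd_imp (Bd_neg hx) hd)) he') (by omega) (by omega) (by omega)
    have h3 : Can m k Hyp (Bd (30 * M) 8 3) 1 (.imp (.imp (.neg (dj y Y)) (gt 0 (y :: Y)))
        (.imp (.neg (.imp (.neg x) (dj y Y))) (gt 0 (x :: y :: Y)))) := by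
      refine can_ax (ψ := Fm.imp (Fm.imp (Fm.neg (Fm.var 0)) (Fm.var 1))
        (Fm.imp (Fm.neg (Fm.imp (Fm.neg (Fm.var 2)) (Fm.var 0))) (Fm.var 3)))
        (σ := fun n => match n with
          | 0 => dj y Y
          | 1 => gt 0 (y :: Y)
          | 2 => x
          | _ => gt 0 (x :: y :: Y)) (by simp [Fm.len]; omega) (fun v hv => ?_) ?_
      · show (!(!(!(v (dj y Y))) || v (gt 0 (y :: Y))) || (!(!(!(!(v x)) || v (dj y Y))) || v (gt 0 (x :: y :: Y)))) = true
        rw [resp_gt hv, resp_gt hv, List.countP_cons (l := y :: Y)]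
        generalize (y :: Y).countP v = c
        by_cases h : v x = true
        · simp [h]
        · have h' : v x = false := by simpa using h
          cases hdd : v (dj y Y) <;> by_cases h0 : c % m = 0 <;> simp [h', h0]
      · show Bd _ _ _ (Fo.imp (.imp (.neg (dj y Y)) (gt 0 (y :: Y)))
          (.imp (.neg (.imp (.neg x) (dj y Y))) (gt 0 (x :: y :: Y))))
        exact Bd_mono (Bd_imp (Bd_imp (Bd_neg hd) he) hb) (by omega) (by omega) (by omega)
    have h4 := can_mp h1 h3 (Bd_mono hb (by omega) (by omega) (by omega))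
    exact can_mono h4 (by simp only [List.length_cons]; omega)

theorem bet (hk : 40 ≤ k) (x : Fo V) (Y : List (Fo V)) (hY : ∀ B ∈ x :: Y, ∃ z, B = .var z) (hM : Y.length + 1 ≤ M)
    (hex : List.Pairwise (fun A B => .imp A (.neg B) ∈ Hyp) (x :: Y)) :
    Can m k Hyp (Bd (30 * M) 8 3) (12 * (Y.length + 1) ^ 2) (.imp (dj x Y) (gt 1 (x :: Y))) := by
  induction Y generalizing x with
  | nil =>
    obtain ⟨z, hz⟩ := hY x (by simp)
    have hx : Bd 1 0 0 x := by rw [hz]; exact Bd_var z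
    have hg := Bd_gt 1 hY
    simp only [List.length_nil, List.length_cons] at hM hg
    refine can_mono ?_ (show 1 ≤ _ by simp)
    refine can_ax (ψ := Fm.imp (Fm.var 0) (Fm.var 1))
      (σ := fun n => match n with
        | 0 => x
        | _ => gt 1 [x]) (by simp [Fm.len]; omega) (fun v hv => ?_) ?_
    · show (!(v x) || v (gt 1 [x])) = true
      rw [resp_gt hv]
      by_cases h : v x = true <;> simp [h]
    · show Bd _ _ _ (Fo.imp x (gt 1 [x]))
      exact Bd_mono (Bd_imp hx hg) (by omega) (by omega) (by omega)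
  | cons y Y ih =>
    simp only [List.length_cons] at hM
    obtain ⟨z, rfl⟩ := hY x (by simp)
    have hx : Bd 1 0 0 (Fo.var z) := Bd_var z
    have hY' : ∀ B ∈ y :: Y, ∃ z, B = Fo.var z := fun B hB => hY B (List.mem_cons_of_mem _ hB)
    have hd : Bd (3 * Y.length + 1) 2 0 (dj y Y) := Bd_dj hY'
    have he : Bd (Y.length + 2) 0 1 (gt 0 (y :: Y)) := Bd_gt 0 hY'
    have ho : Bd (Y.length + 2) 0 1 (gt 1 (y :: Y)) := Bd_gt 1 hY'
    have ho' : Bd (Y.length + 3) 0 1 (gt 1 (.var z :: y :: Y)) := Bd_gt 1 hY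
    have hex' := List.pairwise_cons.1 hex
    have hb := ih y hY' (by omega) hex'.2
    have ha : Can m k Hyp (Bd (30 * M) 8 3) (3 * (Y.length + 1)) (.imp (.neg (dj y Y)) (gt 0 (y :: Y))) :=
      alp hk y Y hY' (by omega)
    have hg : Can m k Hyp (Bd (30 * M) 8 3) (5 * (Y.length + 1)) (.imp (.var z) (.neg (dj y Y))) :=
      gam hk y Y hY' (by omega) hex'.1
    have b1 : Bd (4 * Y.length + 8) 3 1 (.imp (.imp (.neg (.var z)) (dj y Y)) (gt 1 (.var z :: y :: Y))) :=
      Bd_mono (Bd_imp (Bd_imp (Bd_neg hx) hd) ho') (by omega) (by omega) (by omega)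
    have b2 : Bd (7 * Y.length + 14) 4 1 (.imp (.imp (.var z) (.neg (dj y Y)))
        (.imp (.imp (.neg (.var z)) (dj y Y)) (gt 1 (.var z :: y :: Y)))) :=
      Bd_mono (Bd_imp (Bd_imp hx (Bd_neg hd)) b1) (by omega) (by omega) (by omega)
    have b3 : Bd (11 * Y.length + 20) 5 2 (.imp (.imp (.neg (dj y Y)) (gt 0 (y :: Y)))
        (.imp (.imp (.var z) (.neg (dj y Y))) (.imp (.imp (.neg (.var z)) (dj y Y)) (gt 1 (.var z :: y :: Y))))) :=
      Bd_mono (Bd_imp (Bd_imp (Bd_neg hd) he) b2) (by omega) (by omega) (by omega)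
    have h3 : Can m k Hyp (Bd (30 * M) 8 3) 1 (.imp (.imp (dj y Y) (gt 1 (y :: Y)))
        (.imp (.imp (.neg (dj y Y)) (gt 0 (y :: Y)))
        (.imp (.imp (.var z) (.neg (dj y Y))) (.imp (.imp (.neg (.var z)) (dj y Y)) (gt 1 (.var z :: y :: Y)))))) := by
      refine can_ax (ψ := Fm.imp (Fm.imp (Fm.var 0) (Fm.var 1)) (Fm.imp (Fm.imp (Fm.neg (Fm.var 0)) (Fm.var 2))
        (Fm.imp (Fm.imp (Fm.var 3) (Fm.neg (Fm.var 0))) (Fm.imp (Fm.imp (Fm.neg (Fm.var 3)) (Fm.var 0)) (Fm.var 4)))))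
        (σ := fun n => match n with
          | 0 => dj y Y
          | 1 => gt 1 (y :: Y)
          | 2 => gt 0 (y :: Y)
          | 3 => .var z
          | _ => gt 1 (.var z :: y :: Y)) (by simp [Fm.len]; omega) (fun v hv => ?_) ?_
      · show (!(!(v (dj y Y)) || v (gt 1 (y :: Y))) || (!(!(!(v (dj y Y))) || v (gt 0 (y :: Y))) ||
          (!(!(v (.var z)) || !(v (dj y Y))) || (!(!(!(v (.var z))) || v (dj y Y)) || v (gt 1 (.var z :: y :: Y)))))) = true
        rw [resp_gt hv, resp_gt hv, resp_gt hv, List.countP_cons (l := y :: Y)]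
        generalize (y :: Y).countP v = c
        by_cases h : v (.var z) = true
        · cases hdd : v (dj y Y)
          · by_cases h0 : c % m = 0
            · have h1 : (c + 1) % m = 1 % m := by
                rw [Nat.add_mod, h0]
                simp
              simp [h, h1]
            · simp [h0]
          · simp [h]
        · have h' : v (.var z) = false := by simpa using h
          cases hdd : v (dj y Y) <;> by_cases h0 : c % m = 1 % m <;> simp [h', h0]
      · show Bd _ _ _ (Fo.imp (.imp (dj y Y) (gt 1 (y :: Y))) (.imp (.imp (.neg (dj y Y)) (gt 0 (y :: Y)))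
          (.imp (.imp (.var z) (.neg (dj y Y))) (.imp (.imp (.neg (.var z)) (dj y Y)) (gt 1 (.var z :: y :: Y))))))
        exact Bd_mono (Bd_imp (Bd_imp hd ho) b3) (by omega) (by omega) (by omega)
    have h4 := can_mp hb h3 (Bd_mono b3 (by omega) (by omega) (by omega))
    have h5 := can_mp ha h4 (Bd_mono b2 (by omega) (by omega) (by omega))
    have h6 := can_mp hg h5 (Bd_mono b1 (by omega) (by omega) (by omega))
    refine can_mono h6 ?_
    simp only [List.length_cons]
    have e : 12 * (Y.length + 1 + 1) ^ 2 = 12 * (Y.length + 1) ^ 2 + 24 * (Y.length + 1) + 12 := by ring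
    omega

theorem one (hk : 40 ≤ k) (x : Fo V) (Y : List (Fo V)) (hY : ∀ B ∈ x :: Y, ∃ z, B = .var z) (hM : Y.length + 1 ≤ M)
    (hd : dj x Y ∈ Hyp) (hex : List.Pairwise (fun A B => .imp A (.neg B) ∈ Hyp) (x :: Y)) :
    Can m k Hyp (Bd (30 * M) 8 3) (12 * (Y.length + 1) ^ 2 + 2) (gt 1 (x :: Y)) := by
  refine can_mono (can_mp (can_hyp hd ?_) (bet hk x Y hY hM hex) ?_) (by omega)
  · exact Bd_mono (Bd_dj hY) (by omega) (by omega) (by omega)
  · refine Bd_mono (Bd_gt 1 hY) ?_ (by omega) (by omega)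
    simp only [List.length_cons]
    omega

end Pool.Agent.H85.FG.V
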