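import Mathlib
import Pool.Agent.H85.FG.V3
import Pool.Agent.H93.RG.Defs

/-!
# V4: the refutation of the counting principle with MOD_r gates

`row r a`: the variables of the blocks at `a`. `rows r N j`: the rows of the first `j` points.
-/

set_option autoImplicit false

namespace Pool.Agent.H85.FG.V

open Pool.Agent.H3.Frg Pool.Agent.H3.Frg2 Pool.Agent.H67.FG Pool.Agent.H85.FG Pool.Agent.H93.RG

variable {N : ℕ}

/-- the blocks at a point -/
def blk (r : ℕ) (a : Fin N) : Finset (Finset (Fin N)) := (Finset.powersetCard r Finset.univ).filter fun e => a ∈ e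

/-- the variables at a point -/
noncomputable def row (r : ℕ) (a : Fin N) : List (Fo (Finset (Fin N))) := (blk r a).toList.map Fo.var

/-- the rows of the first `j` points -/
noncomputable def rows (r N j : ℕ) : List (Fo (Finset (Fin N))) := ((List.finRange N).take j).flatMap (row r)

theorem mem_blk {r : ℕ} {a : Fin N} {e : Finset (Fin N)} : e ∈ blk r a ↔ e.card = r ∧ a ∈ e := by
  simp [blk, Finset.mem_filter, Finset.mem_powersetCard]

theorem row_var (r : ℕ) (a : Fin N) : ∀ B ∈ row r a, ∃ z, B = Fo.var z := by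
  intro B hB
  obtain ⟨b, _, rfl⟩ := List.mem_map.1 hB
  exact ⟨_, rfl⟩

theorem rows_var (r j : ℕ) : ∀ B ∈ rows r N j, ∃ z, B = Fo.var z := by
  intro B hB
  obtain ⟨a, _, h⟩ := List.mem_flatMap.1 hB
  exact row_var r a B h

theorem row_length (r : ℕ) (a : Fin N) : (row r a).length ≤ N ^ r := by
  unfold row
  rw [List.length_map, Finset.length_toList]
  refine (Finset.card_filter_le _ _).trans ?_
  rw [Finset.card_powersetCard, Finset.card_univ, Fintype.card_fin]
  exact Nat.choose_le_pow N r

theorem flat_length (r : ℕ) (l : List (Fin N)) : (l.flatMap (row r)).length ≤ l.length * N ^ r := by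
  induction l with
  | nil => simp
  | cons a l ih =>
    rw [List.flatMap_cons, List.length_append, List.length_cons, add_mul]
    have := row_length r a
    omega

theorem rows_length (r j : ℕ) : (rows r N j).length ≤ N * N ^ r := by
  refine (flat_length r _).trans (Nat.mul_le_mul_right _ ?_)
  rw [List.length_take, List.length_finRange]
  exact min_le_right _ _

theorem row_pair (r : ℕ) (a : Fin N) : List.Pairwise (fun A B => Fo.imp A (Fo.neg B) ∈ Count r N) (row r a) := by
  unfold row
  rw [List.pairwise_map]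
  have h : List.Pairwise (fun b c : Finset (Fin N) => b ≠ c) (blk r a).toList := (blk r a).nodup_toList
  refine List.Pairwise.imp_of_mem ?_ h
  intro b c hb hc hbc
  exact Or.inl ⟨a, b, c, (mem_blk.1 (Finset.mem_toList.1 hb)).2, (mem_blk.1 (Finset.mem_toList.1 hc)).2, hbc, rfl⟩

theorem row_ne {r : ℕ} (hr : 1 ≤ r) (hN : r ≤ N) (a : Fin N) :
    ∃ (x : Fo (Finset (Fin N))) (Y : List (Fo (Finset (Fin N)))), row r a = x :: Y := by
  have h : row r a ≠ [] := by
    obtain ⟨e, h1, -, h3⟩ : ∃ e : Finset (Fin N), {a} ⊆ e ∧ e ⊆ Finset.univ ∧ e.card = r :=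
      Finset.exists_subsuperset_card_eq (Finset.subset_univ _) (by simpa using hr) (by simpa using hN)
    intro h
    have : Fo.var e ∈ row r a :=
      List.mem_map.2 ⟨e, Finset.mem_toList.2 (mem_blk.2 ⟨h3, h1 (Finset.mem_singleton_self a)⟩), rfl⟩
    rw [h] at this
    simp at this
  exact List.exists_cons_of_ne_nil h

/-- the disjunction of a row is a hypothesis -/
theorem row_hyp {r : ℕ} (a : Fin N) (x : Fo (Finset (Fin N))) (Y : List (Fo (Finset (Fin N)))) (h : row r a = x :: Y) :
    dj x Y ∈ Count r N := by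
  obtain ⟨l, B, h1, h2⟩ := dj_orAll x Y
  refine Or.inr ⟨a, l, B, h1, fun e he hae => (h2 _).2 ?_⟩
  rw [← h]
  exact List.mem_map.2 ⟨e, Finset.mem_toList.2 (mem_blk.2 ⟨he, hae⟩), rfl⟩

/-- every block occurs `r` times -/
theorem dvd_rows (r : ℕ) (w : Fo (Finset (Fin N)) → Bool) : r ∣ (rows r N N).countP w := by
  classical
  have h1 : (rows r N N).countP w = ∑ a : Fin N, ((blk r a).filter fun e => w (Fo.var e) = true).card := by
    unfold rows
    rw [List.take_of_length_le (by simp), List.countP_flatMap, Fin.sum_univ_def]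
    congr 1
    refine List.map_congr_left fun a _ => ?_
    show (row r a).countP w = _
    unfold row
    rw [List.countP_map, List.countP_eq_length_filter, ← Finset.length_toList]
    have h2 : ((blk r a).filter fun e => w (Fo.var e) = true).toList.Perm
        ((blk r a).toList.filter (w ∘ Fo.var)) := by
      rw [List.perm_ext_iff_of_nodup (Finset.nodup_toList _) ((Finset.nodup_toList _).filter _)]
      intro e
      simp [Finset.mem_toList, List.mem_filter]
    exact h2.length_eq.symm
  have h3 : ∑ a : Fin N, ((blk r a).filter fun e => w (Fo.var e) = true).card =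
      ∑ e ∈ (Finset.powersetCard r (Finset.univ : Finset (Fin N))).filter (fun e => w (Fo.var e) = true), e.card := by
    have h4 : ∀ a : Fin N, ((blk r a).filter fun e => w (Fo.var e) = true).card =
        ∑ e ∈ (Finset.powersetCard r (Finset.univ : Finset (Fin N))).filter (fun e => w (Fo.var e) = true),
          if a ∈ e then 1 else 0 := by
      intro a
      rw [← Finset.card_filter]
      congr 1
      ext e
      simp only [blk, Finset.mem_filter, Finset.mem_powersetCard]
      tauto
    rw [Finset.sum_congr rfl fun a _ => h4 a, Finset.sum_comm]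
    refine Finset.sum_congr rfl fun e _ => ?_
    rw [← Finset.card_filter]
    congr 1
    ext a
    simp
  rw [h1, h3]
  refine Finset.dvd_sum fun e he => ?_
  rw [(Finset.mem_powersetCard.1 (Finset.mem_filter.1 he).1).2]

theorem rows_succ (r : ℕ) {j : ℕ} (hj : j < N) : rows r N (j + 1) = rows r N j ++ row r ⟨j, hj⟩ := by
  unfold rows
  rw [List.take_succ_eq_append_getElem (by simpa using hj), List.flatMap_append]
  simp

theorem can_rows (m : ℕ) {k r : ℕ} (hk : 40 ≤ k) (hr : 1 ≤ r) (hN : r ≤ N) : ∀ j, j ≤ N →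
    Can m k (Count r N) (Bd (30 * (N * N ^ r)) 8 3) (j * (12 * (N ^ r) ^ 2 + 5) + 1) (gt j (rows r N j)) := by
  have hN1 : 1 ≤ N := by omega
  have hNr : 1 ≤ N ^ r := Nat.one_le_pow _ _ hN1
  have hNN2 : N ^ r ≤ N * N ^ r := Nat.le_mul_of_pos_left _ hN1
  intro j
  induction j with
  | zero =>
    intro _
    rw [Nat.zero_mul, Nat.zero_add]
    refine can_ax (ψ := Fm.var 0) (σ := fun _ => gt 0 (rows r N 0)) (by simp [Fm.len]; omega) (fun v hv => ?_) ?_
    · show v (gt 0 (rows r N 0)) = true
      rw [resp_gt hv]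
      simp [rows]
    · show Bd _ _ _ (gt 0 (rows r N 0))
      refine Bd_mono (Bd_gt 0 (rows_var r 0)) ?_ (by omega) (by omega)
      have := rows_length (N := N) r 0
      omega
  | succ j ih =>
    intro hj
    have hj' : j < N := by omega
    obtain ⟨x, Y, hxY⟩ := row_ne hr hN (⟨j, hj'⟩ : Fin N)
    have hlen : Y.length + 1 ≤ N ^ r := by
      have := row_length r (⟨j, hj'⟩ : Fin N)
      rw [hxY, List.length_cons] at this
      exact this
    have h1 := ih (by omega)
    have h2 : Can m k (Count r N) (Bd (30 * (N * N ^ r)) 8 3) (12 * (Y.length + 1) ^ 2 + 2) (gt 1 (x :: Y)) := by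
      refine V.one hk x Y ?_ (by omega) (row_hyp _ x Y hxY) ?_
      · rw [← hxY]; exact row_var _ _
      · rw [← hxY]; exact row_pair _ _
    rw [← hxY] at h2
    have hB0 : Bd (N * N ^ r + 1) 0 1 (gt j (rows r N j)) := by
      refine Bd_mono (Bd_gt j (rows_var r j)) ?_ le_rfl le_rfl
      have := rows_length (N := N) r j
      omega
    have hB1 : Bd (N * N ^ r + 1) 0 1 (gt 1 (row r (⟨j, hj'⟩ : Fin N))) := by
      refine Bd_mono (Bd_gt 1 (row_var _ _)) ?_ le_rfl le_rfl
      have := row_length r (⟨j, hj'⟩ : Fin N)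
      omega
    have hB2 : Bd (N * N ^ r + 1) 0 1 (gt (j + 1) (rows r N (j + 1))) := by
      refine Bd_mono (Bd_gt (j + 1) (rows_var r (j + 1))) ?_ le_rfl le_rfl
      have := rows_length (N := N) r (j + 1)
      omega
    have h3 : Can m k (Count r N) (Bd (30 * (N * N ^ r)) 8 3) 1
        (.imp (gt j (rows r N j)) (.imp (gt 1 (row r (⟨j, hj'⟩ : Fin N))) (gt (j + 1) (rows r N (j + 1))))) := by
      refine can_ax (ψ := Fm.imp (Fm.var 0) (Fm.imp (Fm.var 1) (Fm.var 2)))
        (σ := fun n => match n with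
          | 0 => gt j (rows r N j)
          | 1 => gt 1 (row r (⟨j, hj'⟩ : Fin N))
          | _ => gt (j + 1) (rows r N (j + 1))) (by simp [Fm.len]; omega) (fun v hv => ?_) ?_
      · show (!(v (gt j (rows r N j))) || (!(v (gt 1 (row r (⟨j, hj'⟩ : Fin N)))) ||
          v (gt (j + 1) (rows r N (j + 1))))) = true
        rw [resp_gt hv, resp_gt hv, resp_gt hv, rows_succ r hj', List.countP_append]
        generalize (rows r N j).countP v = c1
        generalize (row r (⟨j, hj'⟩ : Fin N)).countP v = c2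
        by_cases e1 : c1 % m = j % m
        · by_cases e2 : c2 % m = 1 % m
          · have e3 : (c1 + c2) % m = (j + 1) % m := by
              rw [Nat.add_mod, e1, e2, ← Nat.add_mod]
            simp [e1, e3]
          · simp [e2]
        · simp [e1]
      · show Bd _ _ _ (Fo.imp (gt j (rows r N j)) (Fo.imp (gt 1 (row r (⟨j, hj'⟩ : Fin N)))
          (gt (j + 1) (rows r N (j + 1)))))
        exact Bd_mono (Bd_imp hB0 (Bd_imp hB1 hB2)) (by omega) (by omega) (by omega)
    have h4 := can_mp h1 h3 (Bd_mono (Bd_imp hB1 hB2) (by omega) (by omega) (by omega))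
    have h5 := can_mp h2 h4 (Bd_mono hB2 (by omega) (by omega) (by omega))
    refine can_mono h5 ?_
    have h6 : (Y.length + 1) ^ 2 ≤ (N ^ r) ^ 2 := Nat.pow_le_pow_left hlen 2
    have h7 : (j + 1) * (12 * (N ^ r) ^ 2 + 5) = j * (12 * (N ^ r) ^ 2 + 5) + (12 * (N ^ r) ^ 2 + 5) := by ring
    rw [h7]
    omega

/-- Refutations of the counting principle with `MOD_m` gates, if the greatest common divisor of `r` and `m` does not divide
`N`: polynomial size, depth at most `8`, at most three gates in a line, unnested. -/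
theorem upper (m r N : ℕ) (hr : 2 ≤ r) (hrN : ¬ r.gcd m ∣ N) :
    ∃ π : List (Fo (Finset (Fin N))), IsRef m 40 (Count r N) π ∧
    (∀ A ∈ π, (∀ B ∈ A.subs, B.dep ≤ 8) ∧ A.gates.ncard ≤ 3) ∧ size π ≤ 1000 * N ^ (3 * r + 2) := by
  have hN0 : 0 < N := by
    rcases Nat.eq_zero_or_pos N with h | h
    · exact absurd (by rw [h]; exact dvd_zero _) hrN
    · exact h
  have hx : Bd 1 0 0 (Fo.var (∅ : Finset (Fin N))) := Bd_var _
  set x : Fo (Finset (Fin N)) := Fo.var ∅ with hxdef
  have hbot := Bd_neg (Bd_imp hx hx)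
  have hNr : 1 ≤ N ^ r := Nat.one_le_pow _ _ hN0
  have hP : 1 ≤ N * N ^ r := Nat.mul_le_mul hN0 hNr
  have hQ : 1 ≤ N * (N ^ r) ^ 2 := Nat.mul_le_mul hN0 (Nat.one_le_pow _ _ hNr)
  have key : ∃ n, n ≤ 24 * (N * (N ^ r) ^ 2) ∧ Can m 40 (Count r N) (Bd (30 * (N * N ^ r)) 8 3) n (.neg (.imp x x)) := by
    by_cases h1 : N < r
    · refine ⟨1, by omega, can_hyp ?_ (Bd_mono hbot (by omega) (by omega) (by omega))⟩
      refine Or.inr ⟨⟨0, hN0⟩, [], _, rfl, fun e he _ => ?_⟩
      exfalso
      have h2 := Finset.card_le_univ e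
      rw [Fintype.card_fin, he] at h2
      omega
    · have hN : r ≤ N := by omega
      have h2 := can_rows m (k := 40) (by norm_num) (by omega) hN N le_rfl
      have hB : Bd (N * N ^ r + 1) 0 1 (gt N (rows r N N)) := by
        refine Bd_mono (Bd_gt N (rows_var r N)) ?_ le_rfl le_rfl
        have := rows_length (N := N) r N
        omega
      have h3 : Can m 40 (Count r N) (Bd (30 * (N * N ^ r)) 8 3) 1 (.neg (gt N (rows r N N))) := by
        refine can_ax (ψ := Fm.neg (Fm.var 0)) (σ := fun _ => gt N (rows r N N)) (by simp [Fm.len]) (fun v hv => ?_) ?_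
        · show (!(v (gt N (rows r N N)))) = true
          rw [resp_gt hv]
          have this : ¬ (rows r N N).countP v % m = N % m := by
            intro h
            have h4 : r.gcd m ∣ (rows r N N).countP v := (Nat.gcd_dvd_left r m).trans (dvd_rows r v)
            have h5 : (rows r N N).countP v ≡ N [MOD r.gcd m] := Nat.ModEq.of_dvd (Nat.gcd_dvd_right r m) h
            exact hrN ((h5.dvd_iff (dvd_refl _)).1 h4)
          simp [this]
        · show Bd _ _ _ (Fo.neg (gt N (rows r N N)))
          exact Bd_mono (Bd_neg hB) (by omega) (by omega) (by omega)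
      have h4 : Can m 40 (Count r N) (Bd (30 * (N * N ^ r)) 8 3) 1
          (.imp (gt N (rows r N N)) (.imp (.neg (gt N (rows r N N))) (.neg (.imp x x)))) := by
        refine can_ax (ψ := Fm.imp (Fm.var 0) (Fm.imp (Fm.neg (Fm.var 0)) (Fm.neg (Fm.imp (Fm.var 1) (Fm.var 1)))))
          (σ := fun n => match n with
            | 0 => gt N (rows r N N)
            | _ => x) (by simp [Fm.len]) (fun v hv => ?_) ?_
        · show (!(v (gt N (rows r N N))) || (!(!(v (gt N (rows r N N)))) || (!(!(v x) || v x)))) = true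
          cases v (gt N (rows r N N)) <;> simp
        · show Bd _ _ _ (Fo.imp (gt N (rows r N N)) (Fo.imp (Fo.neg (gt N (rows r N N))) (Fo.neg (Fo.imp x x))))
          exact Bd_mono (Bd_imp hB (Bd_imp (Bd_neg hB) hbot)) (by omega) (by omega) (by omega)
      have h5 := can_mp h2 h4 (Bd_mono (Bd_imp (Bd_neg hB) hbot) (by omega) (by omega) (by omega))
      have h6 := can_mp h3 h5 (Bd_mono hbot (by omega) (by omega) (by omega))
      refine ⟨_, ?_, h6⟩
      have e2 : N * (12 * (N ^ r) ^ 2 + 5) = 12 * (N * (N ^ r) ^ 2) + 5 * N := by ring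
      have e3 : N ≤ N * (N ^ r) ^ 2 := Nat.le_mul_of_pos_right _ (Nat.pos_of_ne_zero (by positivity))
      have e4 : 2 ≤ N := hr.trans hN
      have e5 : 4 ≤ (N ^ r) ^ 2 := by
        have : 2 ≤ N ^ r := by
          calc 2 ≤ N := e4
            _ = N ^ 1 := (pow_one N).symm
            _ ≤ N ^ r := Nat.pow_le_pow_right hN0 (by omega)
        nlinarith
      have e6 : N * 4 ≤ N * (N ^ r) ^ 2 := Nat.mul_le_mul_left _ e5
      rw [e2]
      omega
  obtain ⟨n, hn, hcan⟩ := key
  obtain ⟨π, h1, h2, h3⟩ := exists_ref hcan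
  refine ⟨π, h1, fun A hA => ⟨(h2 A hA).2.1, (h2 A hA).2.2⟩, ?_⟩
  refine (size_le (L := 30 * (N * N ^ r)) (n := 25 * (N * (N ^ r) ^ 2)) (fun B hB => (h2 B hB).1) (by omega)).trans ?_
  have e : 25 * (N * (N ^ r) ^ 2) * (30 * (N * N ^ r)) = 750 * N ^ (3 * r + 2) := by
    have e1 : N ^ (3 * r + 2) = (N ^ r) ^ 3 * N ^ 2 := by
      rw [← pow_mul, ← pow_add]
      congr 1
      ring
    rw [e1]
    ring
  rw [e]
  exact Nat.mul_le_mul_right _ (by norm_num)

end Pool.Agent.H85.FG.V
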