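import Pool.Agent.H67.FG.Gue
import Pool.Agent.H67.FG.Out

/-!
# Two kinds of formulas with few MOD gates

`few_of_gates`: at most `t` different MOD gates, nested in any way. `few_of_nest`: the MOD gates are nested at most
`l` times and every subformula has at most `t` different outermost MOD gates (any number of MOD gates in all).
-/

set_option autoImplicit false

namespace Pool.Agent.H85.FG

open Pool.Agent.H67.FG

variable {V : Type}

/-- the nesting of the MOD gates -/
def nest : Fo V → ℕ
  | .var _ => 0
  | .neg A => nest A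
  | .imp A B => max (nest A) (nest B)
  | .mod _ _ f => (Finset.univ.sup fun i => nest (f i)) + 1

theorem outer_gates (A : Fo V) : A.outer ⊆ A.gates := by
  induction A with
  | var v => intro γ hγ; exact absurd hγ (by simp [Fo.outer])
  | neg D ih =>
    intro γ hγ
    obtain ⟨h1, h2⟩ := ih hγ
    exact ⟨by simp only [Fo.subs, List.mem_cons]; exact Or.inr h1, h2⟩
  | imp D E ihD ihE =>
    intro γ hγ
    rcases hγ with hγ | hγ
    · obtain ⟨h1, h2⟩ := ihD hγ
      exact ⟨by simp only [Fo.subs, List.mem_cons, List.mem_append]; exact Or.inr (Or.inl h1), h2⟩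
    · obtain ⟨h1, h2⟩ := ihE hγ
      exact ⟨by simp only [Fo.subs, List.mem_cons, List.mem_append]; exact Or.inr (Or.inr h1), h2⟩
  | mod a n f ih =>
    intro γ hγ
    have hγ' : γ = Fo.mod a n f := hγ
    rw [hγ']
    exact ⟨self_mem_subs _, a, n, f, rfl⟩

theorem outer_nest (A : Fo V) : ∀ γ ∈ A.outer, nest γ ≤ nest A := by
  induction A with
  | var v => intro γ hγ; exact absurd hγ (by simp [Fo.outer])
  | neg D ih => intro γ hγ; exact ih γ hγ
  | imp D E ihD ihE =>
    intro γ hγ
    rcases hγ with hγ | hγ
    · exact (ihD γ hγ).trans (le_max_left _ _)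
    · exact (ihE γ hγ).trans (le_max_right _ _)
  | mod a n f ih =>
    intro γ hγ
    have hγ' : γ = Fo.mod a n f := hγ
    rw [hγ']

theorem outer_empty {A : Fo V} (h : nest A = 0) : A.outer = ∅ := by
  rw [Set.eq_empty_iff_forall_notMem]
  intro γ hγ
  have h1 := outer_nest A γ hγ
  obtain ⟨_, a, n, f, rfl⟩ := outer_gates A hγ
  simp only [nest] at h1
  omega

theorem few_of_gates {A : Fo V} {t : ℕ} (h : A.gates.ncard ≤ t) : Few t 1 A := by
  refine ⟨A.gates, gates_finite A, h, outer_gates A, fun a n f hf i => Or.inl ?_⟩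
  exact (outer_gates _).trans (gates_mono (mem_subs_of_mem_mod hf.1 i))

theorem few_of_nest {t : ℕ} : ∀ (l : ℕ) (A : Fo V), nest A ≤ l → (∀ B ∈ A.subs, B.outer.ncard ≤ t) → Few t l A := by
  intro l
  induction l with
  | zero => intro A h _; exact outer_empty (by omega)
  | succ l ih =>
    intro A h hB
    refine ⟨A.outer, (gates_finite A).subset (outer_gates A), hB A (self_mem_subs A), subset_rfl,
      fun a n f hf i => Or.inr (ih _ ?_ fun B hB' => hB B ?_)⟩
    · have h1 := outer_nest A _ hf
      have h2 : nest (f i) ≤ Finset.univ.sup fun i => nest (f i) :=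
        Finset.le_sup (f := fun i => nest (f i)) (Finset.mem_univ i)
      simp only [nest] at h1
      omega
    · exact subs_trans hB' (mem_subs_of_mem_mod (outer_gates A hf).1 i)

end Pool.Agent.H85.FG
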