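import Mathlib
import Pool.Agent.H3.MX.Defs
import Pool.Agent.H85.FG.V4

/-!
# Refutations with one modulus are refutations in which each line has its own modulus
-/

set_option autoImplicit false

namespace Pool.Agent.H85.FG.V

open Pool.Agent.H67.FG Pool.Agent.H93.RG Pool.Agent.H3.MX

theorem mix_of_ref {V : Type} {m k : ℕ} {Hyp : Set (Fo V)} {π : List (Fo V)} (h : IsRef m k Hyp π) :
    IsMix k Hyp (π.map fun A => (m, A)) := by
  refine ⟨fun i hi => ?_, ?_⟩
  · have hi' : i < π.length := by simpa using hi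
    simp only [List.getElem_map]
    rcases h.line i hi' with h1 | h1 | ⟨j, l, hj, hl, h1⟩
    · exact Or.inl h1
    · exact Or.inr (Or.inl h1)
    · exact Or.inr (Or.inr ⟨j, l, hj, hl, h1, Or.inl trivial, Or.inl trivial⟩)
  · obtain ⟨h1, A, h2⟩ := h.last
    refine ⟨by simpa using h1, A, ?_⟩
    rw [List.getLast_map]
    exact h2

/-- The upper bound in the form of refutations in which each line has its own modulus. -/
theorem upper_mix (m r N : ℕ) (hr : 2 ≤ r) (hrN : ¬ r.gcd m ∣ N) :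
    ∃ π : List (ℕ × Fo (Finset (Fin N))), IsMix 40 (Count r N) π ∧
      (∀ x ∈ π, x.1 = m ∧ (∀ B ∈ x.2.subs, B.dep ≤ 8) ∧ x.2.gates.ncard ≤ 3) ∧
      size (π.map Prod.snd) ≤ 1000 * N ^ (3 * r + 2) := by
  obtain ⟨π, h1, h2, h3⟩ := upper m r N hr hrN
  refine ⟨π.map fun A => (m, A), mix_of_ref h1, fun x hx => ?_, ?_⟩
  · obtain ⟨A, hA, rfl⟩ := List.mem_map.1 hx
    exact ⟨rfl, h2 A hA⟩
  · rw [List.map_map]
    have : (Prod.snd ∘ fun A : Fo (Finset (Fin N)) => (m, A)) = id := rfl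
    rw [this, List.map_id]
    exact h3

end Pool.Agent.H85.FG.V
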