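import Mathlib
import Pool.Agent.H85.FG.V3

/-!
# U4: the refutation with MOD_2 gates

`row a`: the variables `x_ab`, `b ≠ a`. `T j`: the gate with the rows of the first `j` vertices (residue `j`).
-/

set_option autoImplicit false

namespace Pool.Agent.H85.FG

open Pool.Agent.H3.Frg Pool.Agent.H3.Frg2 Pool.Agent.H67.FG

variable {N : ℕ}

/-- the variables at a vertex -/
def row (a : Fin N) : List (Fo (Sym2 (Fin N))) :=
  ((List.finRange N).filter fun b => decide (b ≠ a)).map fun b => Fo.var s(a, b)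

/-- the rows of the first `j` vertices -/
def rows (N j : ℕ) : List (Fo (Sym2 (Fin N))) := ((List.finRange N).take j).flatMap row

theorem row_var (a : Fin N) : ∀ B ∈ row a, ∃ z, B = Fo.var z := by
  intro B hB
  obtain ⟨b, _, rfl⟩ := List.mem_map.1 hB
  exact ⟨_, rfl⟩

theorem rows_var (j : ℕ) : ∀ B ∈ rows N j, ∃ z, B = Fo.var z := by
  intro B hB
  obtain ⟨a, _, h⟩ := List.mem_flatMap.1 hB
  exact row_var a B h

theorem row_length (a : Fin N) : (row a).length ≤ N := by
  unfold row
  rw [List.length_map]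
  exact (List.length_filter_le _ _).trans (by simp)

theorem flat_length (l : List (Fin N)) : (l.flatMap row).length ≤ l.length * N := by
  induction l with
  | nil => simp
  | cons a l ih =>
    rw [List.flatMap_cons, List.length_append, List.length_cons, add_mul]
    have := row_length a
    omega

theorem rows_length (j : ℕ) : (rows N j).length ≤ N * N := by
  refine (flat_length _).trans (Nat.mul_le_mul_right _ ?_)
  rw [List.length_take, List.length_finRange]
  exact min_le_right _ _

theorem row_pair (a : Fin N) : List.Pairwise (fun A B => Fo.imp A (Fo.neg B) ∈ Parity N) (row a) := by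
  unfold row
  rw [List.pairwise_map]
  have h : List.Pairwise (fun b c : Fin N => b ≠ c) ((List.finRange N).filter fun b => decide (b ≠ a)) :=
    (List.nodup_finRange N).filter _
  exact h.imp fun {b c} hbc => Or.inl ⟨a, b, c, hbc, rfl⟩

theorem row_ne (hN : 2 ≤ N) (a : Fin N) : ∃ (x : Fo (Sym2 (Fin N))) (Y : List (Fo (Sym2 (Fin N)))), row a = x :: Y := by
  have h : row a ≠ [] := by
    obtain ⟨b, hb⟩ : ∃ b : Fin N, b ≠ a := by
      by_cases h0 : a.1 = 0
      · exact ⟨⟨1, by omega⟩, fun h => by rw [← h] at h0; simp at h0⟩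
      · exact ⟨⟨0, by omega⟩, fun h => h0 (by rw [← h])⟩
    intro h
    have : Fo.var s(a, b) ∈ row a := List.mem_map.2 ⟨b, List.mem_filter.2 ⟨List.mem_finRange b, by simpa using hb⟩, rfl⟩
    rw [h] at this
    simp at this
  exact List.exists_cons_of_ne_nil h

/-- the disjunction of a row is a hypothesis -/
theorem row_hyp (a : Fin N) (x : Fo (Sym2 (Fin N))) (Y : List (Fo (Sym2 (Fin N)))) (h : row a = x :: Y) :
    dj x Y ∈ Parity N := by
  obtain ⟨l, B, h1, h2⟩ := dj_orAll x Y
  refine Or.inr ⟨a, l, B, h1, fun b hb => (h2 _).2 ?_⟩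
  rw [← h]
  exact List.mem_map.2 ⟨b, List.mem_filter.2 ⟨List.mem_finRange b, by simpa using hb⟩, rfl⟩

theorem countP_finRange (q : Fin N → Bool) :
    (List.finRange N).countP q = (Finset.univ.filter fun b => q b = true).card := by
  rw [List.countP_eq_length_filter, Finset.card_def, Finset.filter_val]
  have h : (Finset.univ : Finset (Fin N)).val = (List.finRange N : Multiset (Fin N)) := rfl
  rw [h, Multiset.filter_coe, Multiset.coe_card]
  congr 1
  refine List.filter_congr fun x _ => ?_
  simp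

/-- every edge occurs twice -/
theorem even_rows (w : Fo (Sym2 (Fin N)) → Bool) : Even ((rows N N).countP w) := by
  classical
  let G : SimpleGraph (Fin N) :=
    { Adj := fun a b => a ≠ b ∧ w (Fo.var s(a, b)) = true
      symm := ⟨fun a b h => ⟨h.1.symm, by rw [Sym2.eq_swap]; exact h.2⟩⟩
      loopless := ⟨fun a h => h.1 rfl⟩ }
  have h1 : (rows N N).countP w = ∑ a : Fin N, G.degree a := by
    unfold rows
    rw [List.take_of_length_le (by simp), List.countP_flatMap, Fin.sum_univ_def]
    congr 1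
    refine List.map_congr_left fun a _ => ?_
    show (row a).countP w = G.degree a
    unfold row
    rw [List.countP_map, List.countP_filter, countP_finRange, ← SimpleGraph.card_neighborFinset_eq_degree]
    congr 1
    ext b
    simp only [Finset.mem_filter, Finset.mem_univ, true_and, SimpleGraph.mem_neighborFinset, Function.comp_apply,
      Bool.and_eq_true, decide_eq_true_eq]
    exact ⟨fun h => ⟨fun h' => h.2 h'.symm, h.1⟩, fun h => ⟨h.2, fun h' => h.1 h'.symm⟩⟩
  rw [h1, G.sum_degrees_eq_twice_card_edges]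
  exact even_two_mul _

theorem rows_succ {j : ℕ} (hj : j < N) : rows N (j + 1) = rows N j ++ row ⟨j, hj⟩ := by
  unfold rows
  rw [List.take_succ_eq_append_getElem (by simpa using hj), List.flatMap_append]
  simp

theorem can_rows {k : ℕ} (hk : 40 ≤ k) (hN : 2 ≤ N) : ∀ j, j ≤ N →
    Can 2 k (Parity N) (Bd (30 * (N * N)) 8 3) (j * (12 * N ^ 2 + 5) + 1) (gt j (rows N j)) := by
  have hNN : 4 ≤ N * N := Nat.mul_le_mul hN hN
  have hNN2 : N ≤ N * N := Nat.le_mul_of_pos_left _ (by omega)
  intro j
  induction j with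
  | zero =>
    intro _
    rw [Nat.zero_mul, Nat.zero_add]
    refine can_ax (ψ := Fm.var 0) (σ := fun _ => gt 0 (rows N 0)) (by simp [Fm.len]; omega) (fun v hv => ?_) ?_
    · show v (gt 0 (rows N 0)) = true
      rw [resp_gt hv]
      simp [rows]
    · show Bd _ _ _ (gt 0 (rows N 0))
      refine Bd_mono (Bd_gt 0 (rows_var 0)) ?_ (by omega) (by omega)
      have := rows_length (N := N) 0
      omega
  | succ j ih =>
    intro hj
    have hj' : j < N := by omega
    obtain ⟨x, Y, hxY⟩ := row_ne hN (⟨j, hj'⟩ : Fin N)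
    have hlen : Y.length + 1 ≤ N := by
      have := row_length (⟨j, hj'⟩ : Fin N)
      rw [hxY, List.length_cons] at this
      exact this
    have h1 := ih (by omega)
    have h2 : Can 2 k (Parity N) (Bd (30 * (N * N)) 8 3) (12 * (Y.length + 1) ^ 2 + 2) (gt 1 (x :: Y)) := by
      refine V.one hk x Y ?_ (by omega) (row_hyp _ x Y hxY) ?_
      · rw [← hxY]; exact row_var _
      · rw [← hxY]; exact row_pair _
    rw [← hxY] at h2
    have hB0 : Bd (N * N + 1) 0 1 (gt j (rows N j)) := by
      refine Bd_mono (Bd_gt j (rows_var j)) ?_ le_rfl le_rfl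
      have := rows_length (N := N) j
      omega
    have hB1 : Bd (N * N + 1) 0 1 (gt 1 (row (⟨j, hj'⟩ : Fin N))) := by
      refine Bd_mono (Bd_gt 1 (row_var _)) ?_ le_rfl le_rfl
      have := row_length (⟨j, hj'⟩ : Fin N)
      omega
    have hB2 : Bd (N * N + 1) 0 1 (gt (j + 1) (rows N (j + 1))) := by
      refine Bd_mono (Bd_gt (j + 1) (rows_var (j + 1))) ?_ le_rfl le_rfl
      have := rows_length (N := N) (j + 1)
      omega
    have h3 : Can 2 k (Parity N) (Bd (30 * (N * N)) 8 3) 1
        (.imp (gt j (rows N j)) (.imp (gt 1 (row (⟨j, hj'⟩ : Fin N))) (gt (j + 1) (rows N (j + 1))))) := by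
      refine can_ax (ψ := Fm.imp (Fm.var 0) (Fm.imp (Fm.var 1) (Fm.var 2)))
        (σ := fun n => match n with
          | 0 => gt j (rows N j)
          | 1 => gt 1 (row (⟨j, hj'⟩ : Fin N))
          | _ => gt (j + 1) (rows N (j + 1))) (by simp [Fm.len]; omega) (fun v hv => ?_) ?_
      · show (!(v (gt j (rows N j))) || (!(v (gt 1 (row (⟨j, hj'⟩ : Fin N)))) || v (gt (j + 1) (rows N (j + 1))))) = true
        rw [resp_gt hv, resp_gt hv, resp_gt hv, rows_succ hj', List.countP_append]
        generalize (rows N j).countP v = c1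
        generalize (row (⟨j, hj'⟩ : Fin N)).countP v = c2
        by_cases e1 : c1 % 2 = j % 2
        · by_cases e2 : c2 % 2 = 1 % 2
          · have e3 : (c1 + c2) % 2 = (j + 1) % 2 := by omega
            simp [e1, e3]
          · simp [e2]
        · simp [e1]
      · show Bd _ _ _ (Fo.imp (gt j (rows N j)) (Fo.imp (gt 1 (row (⟨j, hj'⟩ : Fin N))) (gt (j + 1) (rows N (j + 1)))))
        exact Bd_mono (Bd_imp hB0 (Bd_imp hB1 hB2)) (by omega) (by omega) (by omega)
    have h4 := can_mp h1 h3 (Bd_mono (Bd_imp hB1 hB2) (by omega) (by omega) (by omega))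
    have h5 := can_mp h2 h4 (Bd_mono hB2 (by omega) (by omega) (by omega))
    refine can_mono h5 ?_
    have h6 : (Y.length + 1) ^ 2 ≤ N ^ 2 := Nat.pow_le_pow_left hlen 2
    have h7 : (j + 1) * (12 * N ^ 2 + 5) = j * (12 * N ^ 2 + 5) + (12 * N ^ 2 + 5) := by ring
    rw [h7]
    omega

/-- Refutations with `MOD_2` gates: polynomial size, depth at most `8`, at most three gates in a line, unnested. -/
theorem upper : ∃ C : ℕ, ∀ N : ℕ, Odd N → ∃ π : List (Fo (Sym2 (Fin N))), IsRef 2 C (Parity N) π ∧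
    (∀ A ∈ π, (∀ B ∈ A.subs, B.dep ≤ 8) ∧ A.gates.ncard ≤ 3) ∧ size π ≤ C * N ^ 5 := by
  refine ⟨1000, fun N hodd => ?_⟩
  have hN0 : 0 < N := hodd.pos
  have hx : Bd 1 0 0 (Fo.var s((⟨0, hN0⟩ : Fin N), ⟨0, hN0⟩)) := Bd_var _
  set x : Fo (Sym2 (Fin N)) := Fo.var s((⟨0, hN0⟩ : Fin N), ⟨0, hN0⟩) with hxdef
  have hbot := Bd_neg (Bd_imp hx hx)
  have key : ∃ n, n ≤ 24 * N ^ 3 ∧ Can 2 1000 (Parity N) (Bd (30 * (N * N)) 8 3) n (.neg (.imp x x)) := by
    by_cases h1 : N = 1
    · refine ⟨1, by rw [h1]; norm_num, can_hyp ?_ (Bd_mono hbot ?_ (by omega) (by omega))⟩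
      · refine Or.inr ⟨⟨0, hN0⟩, [], _, rfl, fun b hb => ?_⟩
        exfalso
        apply hb
        apply Fin.ext
        have := b.2
        simp only
        omega
      · rw [h1]; norm_num
    · have hN : 2 ≤ N := by omega
      have hNN : 4 ≤ N * N := Nat.mul_le_mul hN hN
      have h2 := can_rows (k := 1000) (by norm_num) hN N le_rfl
      have hB : Bd (N * N + 1) 0 1 (gt N (rows N N)) := by
        refine Bd_mono (Bd_gt N (rows_var N)) ?_ le_rfl le_rfl
        have := rows_length (N := N) N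
        omega
      have h3 : Can 2 1000 (Parity N) (Bd (30 * (N * N)) 8 3) 1 (.neg (gt N (rows N N))) := by
        refine can_ax (ψ := Fm.neg (Fm.var 0)) (σ := fun _ => gt N (rows N N)) (by simp [Fm.len]) (fun v hv => ?_) ?_
        · show (!(v (gt N (rows N N)))) = true
          rw [resp_gt hv]
          obtain ⟨c, hc⟩ := even_rows (N := N) v
          obtain ⟨m, hm⟩ := hodd
          have : ¬ (rows N N).countP v % 2 = N % 2 := by omega
          simp [this]
        · show Bd _ _ _ (Fo.neg (gt N (rows N N)))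
          exact Bd_mono (Bd_neg hB) (by omega) (by omega) (by omega)
      have h4 : Can 2 1000 (Parity N) (Bd (30 * (N * N)) 8 3) 1
          (.imp (gt N (rows N N)) (.imp (.neg (gt N (rows N N))) (.neg (.imp x x)))) := by
        refine can_ax (ψ := Fm.imp (Fm.var 0) (Fm.imp (Fm.neg (Fm.var 0)) (Fm.neg (Fm.imp (Fm.var 1) (Fm.var 1)))))
          (σ := fun n => match n with
            | 0 => gt N (rows N N)
            | _ => x) (by simp [Fm.len]) (fun v hv => ?_) ?_
        · show (!(v (gt N (rows N N))) || (!(!(v (gt N (rows N N)))) || (!(!(v x) || v x)))) = true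
          cases v (gt N (rows N N)) <;> simp
        · show Bd _ _ _ (Fo.imp (gt N (rows N N)) (Fo.imp (Fo.neg (gt N (rows N N))) (Fo.neg (Fo.imp x x))))
          exact Bd_mono (Bd_imp hB (Bd_imp (Bd_neg hB) hbot)) (by omega) (by omega) (by omega)
      have h5 := can_mp h2 h4 (Bd_mono (Bd_imp (Bd_neg hB) hbot) (by omega) (by omega) (by omega))
      have h6 := can_mp h3 h5 (Bd_mono hbot (by omega) (by omega) (by omega))
      refine ⟨_, ?_, h6⟩
      have e1 : N ^ 3 = N * N * N := by ring
      have e2 : N * (12 * N ^ 2 + 5) = 12 * (N * N * N) + 5 * N := by ring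
      have e3 : 4 * N ≤ N * N * N := Nat.mul_le_mul_right _ hNN
      rw [e1, e2]
      omega
  obtain ⟨n, hn, hcan⟩ := key
  obtain ⟨π, h1, h2, h3⟩ := exists_ref hcan
  refine ⟨π, h1, fun A hA => ⟨(h2 A hA).2.1, (h2 A hA).2.2⟩, ?_⟩
  refine (size_le (L := 30 * (N * N)) (n := 25 * N ^ 3) (fun B hB => (h2 B hB).1) ?_).trans ?_
  · have : 1 ≤ N ^ 3 := Nat.one_le_iff_ne_zero.2 (pow_ne_zero _ (by omega))
    omega
  · calc 25 * N ^ 3 * (30 * (N * N)) = 750 * N ^ 5 := by ring
      _ ≤ 1000 * N ^ 5 := Nat.mul_le_mul_right _ (by norm_num)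

end Pool.Agent.H85.FG
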